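import Pool.Agent.MP_3ee8cb_gt.D3LM.Lip
import Pool.Agent.MP_3ee8cb_gt.D3NP.XPOLR

/-! Charts, cones and null sets. -/

namespace Pool.Agent.MP_3ee8cb_gt.CZN

open Set Filter MeasureTheory D3 D3NP D3LM
open D3MO (S2)
open D3AR (un)
open scoped ENNReal NNReal

variable {K C : V → V} {Om S G : Set V} {Q : V → Prop}

/-- The area formula for an injective locally Lipschitz map. -/
theorem area (hO : IsOpen Om) (hK : LocallyLipschitzOn Om K) (hS : MeasurableSet S)
    (sub : S ⊆ Om) (inj : InjOn K S) (h : V → ℝ≥0∞) : ∫⁻ a in K '' S, h a =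
      ∫⁻ w in S, ENNReal.ofReal |(fderiv ℝ K w).det| * h (K w) := by
  set D := {w | DifferentiableAt ℝ K w}
  have m : MeasurableSet (S ∩ D) := hS.inter (measurableSet_of_differentiableAt ℝ K)
  have n : volume (S \ D) = 0 := measure_eq_zero_iff_ae_notMem.2
    ((ae_diff volume hO hK).mono fun a ha k => k.2 (ha (sub k.1)))
  have e1 : S =ᵐ[volume] (S ∩ D : Set V) := by
    refine ae_eq_set.2 ⟨by rwa [sdiff_self_inter], ?_⟩
    rw [sdiff_eq_empty.2 inter_subset_left, measure_empty]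
  have e2 : (K '' S : Set V) =ᵐ[volume] (K '' (S ∩ D) : Set V) := by
    refine ae_eq_set.2 ⟨measure_mono_null ?_
      (img_null volume (hK.mono fun _ k => sub k.1) n), ?_⟩
    · rintro _ ⟨⟨w, hw, rfl⟩, k⟩
      exact ⟨w, ⟨hw, fun d => k ⟨w, ⟨hw, d⟩, rfl⟩⟩, rfl⟩
    · rw [sdiff_eq_empty.2 (image_mono inter_subset_left), measure_empty]
  rw [setLIntegral_congr e1, setLIntegral_congr e2]
  exact lintegral_image_eq_lintegral_abs_det_fderiv_mul volume m
    (fun w hw => hw.2.hasFDerivAt.hasFDerivWithinAt) (inj.mono inter_subset_left) h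

theorem ae_pol (h : ∀ᵐ a : V, Q a) :
    ∀ᵐ p : S2 ∂(volume : Measure V).toSphere, ∀ᵐ t : ℝ, Q (Real.exp t • p.1) := by
  rw [← XPOLR.map_eq] at h
  have h1 := (ae_withDensity_iff XPOLR.mw.coe_nnreal_ennreal).1
    (ae_of_ae_map XPOLR.mP.aemeasurable h)
  refine Measure.ae_ae_of_ae_prod (p := fun x : S2 × ℝ => Q (Real.exp x.2 • x.1.1))
    (h1.mono fun x k => k ?_)
  simp [Real.exp_pos]

theorem un_exp (t : ℝ) {p : V} (hp : ‖p‖ = 1) : un (Real.exp t • p) = p := by
  rw [un, norm_smul, hp, mul_one, Real.norm_of_nonneg (Real.exp_pos t).le, smul_smul,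
    inv_mul_cancel₀ (Real.exp_pos t).ne', one_smul]

theorem norm_un {a : V} (h : a ≠ 0) : ‖un a‖ = 1 := by
  rw [un, norm_smul, norm_inv, norm_norm, inv_mul_cancel₀ (norm_ne_zero_iff.2 h)]

theorem m_un : Measurable un := measurable_norm.inv.smul measurable_id

theorem ae_cone (h : ∀ᵐ p : S2 ∂(volume : Measure V).toSphere, Q p.1) : ∀ᵐ a : V, Q (un a) := by
  obtain ⟨N, n1, n2, n3⟩ := exists_measurable_superset_of_null (ae_iff.1 h)
  have e : MeasurableEmbedding ((↑) : S2 → V) :=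
    MeasurableEmbedding.subtype_coe Metric.isClosed_sphere.measurableSet
  have m := m_un (e.measurableSet_image.2 n2)
  have z : (volume : Measure V) (un ⁻¹' ((↑) '' N)) = 0 := by
    rw [← XPOLR.map_eq, Measure.map_apply XPOLR.mP m]
    refine withDensity_absolutelyContinuous _ _ (measure_mono_null (t := N ×ˢ univ) ?_ ?_)
    · rintro x ⟨p, hp, k⟩
      rw [un_exp _ (by simp)] at k
      exact ⟨Subtype.ext k ▸ hp, trivial⟩
    · rw [Measure.prod_prod, n3, zero_mul]
  filter_upwards [measure_eq_zero_iff_ae_notMem.1 z, Measure.ae_ne volume 0] with a h1 h2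
  by_contra k
  exact h1 ⟨⟨un a, by simpa using norm_un h2⟩, n1 k, rfl⟩

/-- Integration over a shell. -/
theorem shell {g : V → ℝ≥0∞} (hg : Measurable g) (s : ℝ) :
    ∫⁻ a in {a : V | a ≠ 0 ∧ Real.log ‖a‖ ∈ Icc s (s + 1)}, ENNReal.ofReal (‖a‖ ^ 3)⁻¹ * g (un a) =
      ∫⁻ p : S2, g p ∂(volume : Measure V).toSphere := by
  have m : MeasurableSet {a : V | a ≠ 0 ∧ Real.log ‖a‖ ∈ Icc s (s + 1)} :=
    isOpen_ne.measurableSet.inter (measurable_norm.log measurableSet_Icc)
  have m2 : Measurable fun a : V => ENNReal.ofReal (‖a‖ ^ 3)⁻¹ * g (un a) :=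
    (measurable_norm.pow_const 3).inv.ennreal_ofReal.mul (hg.comp m_un)
  rw [← lintegral_indicator m, D3AR.pol _ (m2.indicator m)]
  refine lintegral_congr fun p => ?_
  have n : ‖p.1‖ = 1 := by simp
  have k : ∀ t, ‖Real.exp t • p.1‖ = Real.exp t := fun t => by
    rw [norm_smul, n, mul_one, Real.norm_of_nonneg (Real.exp_pos t).le]
  have e : ∀ t, ENNReal.ofReal (Real.exp (3 * t)) *
      {a : V | a ≠ 0 ∧ Real.log ‖a‖ ∈ Icc s (s + 1)}.indicator
        (fun a => ENNReal.ofReal (‖a‖ ^ 3)⁻¹ * g (un a)) (Real.exp t • p.1) =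
      (Icc s (s + 1)).indicator (fun _ => g p) t := fun t => by
    by_cases ht : t ∈ Icc s (s + 1)
    · rw [indicator_of_mem ht, indicator_of_mem, k, un_exp _ n, ← mul_assoc,
        ← ENNReal.ofReal_mul (Real.exp_pos _).le, ← Real.exp_nat_mul, Nat.cast_ofNat,
        mul_inv_cancel₀ (Real.exp_pos _).ne', ENNReal.ofReal_one, one_mul]
      exact ⟨norm_ne_zero_iff.1 ((k t).trans_ne (Real.exp_pos t).ne'), by rwa [k, Real.log_exp]⟩
    · rw [indicator_of_notMem ht, indicator_of_notMem, mul_zero]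
      exact fun d => ht (by simpa only [k, Real.log_exp] using d.2)
  simp only [e]
  rw [lintegral_indicator measurableSet_Icc, setLIntegral_const, Real.volume_Icc,
    add_sub_cancel_left, ENNReal.ofReal_one, mul_one]

/-- A property of almost every point downstairs holds at almost every regular chart point. -/
theorem ae_reg (K : V → V) (hQ : ∀ᵐ z, Q z) :
    ∀ᵐ w, DifferentiableAt ℝ K w → (fderiv ℝ K w).det ≠ 0 → Q (K w) := by
  have := nul_pre1 volume (f := K) (f' := fderiv ℝ K)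
    (s := {w | DifferentiableAt ℝ K w ∧ (fderiv ℝ K w).det ≠ 0})
    (fun w hw => hw.1.hasFDerivAt.hasFDerivWithinAt) (fun w hw => hw.2) (ae_iff.1 hQ)
  filter_upwards [measure_eq_zero_iff_ae_notMem.1 this] with w h h1 h2
  by_contra k
  exact h ⟨⟨h1, h2⟩, k⟩

/-- A property of almost every chart point holds at almost every point of the image. -/
theorem ae_img (hK : LocallyLipschitzOn S K) (hQ : ∀ᵐ w, w ∈ S → Q w) :
    ∀ᵐ a, ∀ w ∈ S, K w = a → Q w := by
  have := img_null volume (s := {w ∈ S | ¬Q w}) (hK.mono fun _ k => k.1)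
    (measure_eq_zero_iff_ae_notMem.2 (hQ.mono fun w h k => k.2 (h k.1)))
  filter_upwards [measure_eq_zero_iff_ae_notMem.1 this] with a h w h1 h2
  by_contra k
  exact h ⟨w, ⟨h1, k⟩, h2⟩

/-- The same for points of differentiability. -/
theorem ae_img' (K : V → V) (hQ : ∀ᵐ w, Q w) :
    ∀ᵐ a, ∀ w, DifferentiableAt ℝ K w → K w = a → Q w := by
  have := addHaar_image_eq_zero_of_differentiableOn_of_addHaar_eq_zero volume (f := K)
    (s := {w | DifferentiableAt ℝ K w ∧ ¬Q w}) (fun w hw => hw.1.differentiableWithinAt)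
    (measure_eq_zero_iff_ae_notMem.2 (hQ.mono fun w h k => k.2 h))
  filter_upwards [measure_eq_zero_iff_ae_notMem.1 this] with a h w h1 h2
  by_contra k
  exact h ⟨w, ⟨h1, k⟩, h2⟩

end Pool.Agent.MP_3ee8cb_gt.CZN
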