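import Pool.Agent.MP_3ee8cb_gt.D3NP.T1

/-! Without merging saddles the only strict local minimum is the global minimum. -/

namespace Pool.Agent.MP_3ee8cb_gt.CZN

open Set Filter Topology D3NP

variable {P : Type} [MetricSpace P] [CompactSpace P] [LocallyPathConnectedSpace P]
  [PathConnectedSpace P] {f : P → ℝ} {Cr : Finset P} {p : P}

theorem one_min (h : Tm f Cr) (h0 : ∀ q ∈ Cr, Mi f q ∨ Lw f q) (hp : Mi f p) (q : P) :
    f p ≤ f q := by
  classical
  have mem : ∀ y, y ∉ closure {q | f q < f y} → y ∈ Cr ∧ Mi f y := fun y hy =>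
    (h.loc y).elim (fun k => (hy k.1).elim) fun k => ⟨k.1, k.2.elim id fun l => (hy l.1).elim⟩
  obtain ⟨m, -, hm⟩ := isCompact_univ.exists_isMinOn ⟨p, mem_univ p⟩ h.cont.continuousOn
  have e : {q | f q < f m} = ∅ := eq_empty_of_forall_notMem fun y hy =>
    not_lt.2 (show f m ≤ f y from hm (mem_univ y)) hy
  have m1 := mem m (by rw [e, closure_empty]; exact notMem_empty m)
  have p1 := mem p hp.not_cl
  have k := h.m1
  rw [sum_st] at k
  have z : (Cr.filter fun q => ¬Mi f q ∧ ¬Lw f q) = ∅ :=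
    Finset.filter_eq_empty_iff.2 fun y hy k => (h0 y hy).elim k.1 k.2
  rw [z, Finset.card_empty] at k
  have c : (Cr.filter (Mi f)).card ≤ 1 := by omega
  have := Finset.card_le_one.1 c p (Finset.mem_filter.2 p1) m (Finset.mem_filter.2 m1)
  rw [this]
  exact hm (mem_univ q)

end Pool.Agent.MP_3ee8cb_gt.CZN
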