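import Mathlib

/-! The last step: a pair of opposite global minima forces all lines through one point. -/

namespace Pool.Agent.MP_3ee8cb_gt.CZN

open Set Filter Topology MeasureTheory

/-- A bound that holds for almost every earlier time holds at the limit time. -/
theorem lim_le {f : ℝ → ℝ} (hf : Continuous f) {τ : ℝ} (h : ∀ᵐ t : ℝ, t < τ → t ≤ f t) :
    τ ≤ f τ := by
  by_contra hc
  have hc' : f τ < τ := not_le.1 hc
  have ho : IsOpen {t : ℝ | f t < t} := isOpen_lt hf continuous_id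
  obtain ⟨ε, hε, hb⟩ := Metric.isOpen_iff.1 ho τ hc'
  have h0 : volume (Ioo (τ - ε) τ) = 0 := by
    refine measure_mono_null (fun t ht => ?_) (ae_iff.1 h)
    have hm : t ∈ Metric.ball τ ε := by
      rw [Real.ball_eq_Ioo]
      exact ⟨ht.1, by linarith [ht.2]⟩
    have h2 : f t < t := hb hm
    simp only [mem_ofPred_eq, Classical.not_imp, not_le]
    exact ⟨ht.2, h2⟩
  rw [Real.volume_Ioo] at h0
  have : (0 : ℝ) < τ - (τ - ε) := by linarith
  exact absurd h0 (ENNReal.ofReal_pos.2 this).ne'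

/-- The abstract end of the proof. -/
theorem end0 {P Y : Type*} [TopologicalSpace Y] (ng : P → P) (C : P → ℝ → Y) (β : Y → P → ℝ)
    (inv : ∀ p, ng (ng p) = p) (cβ : ∀ q, Continuous fun z => β z q) (cC : ∀ p, Continuous (C p))
    (flip : ∀ p t, C (ng p) t = C p (-t)) (val : ∀ p t, β (C p t) p = t)
    (tm : ∀ z q, ∃ q', β z q' ≤ -β z (ng q))
    (crit : ∀ z q, β z q = -β z (ng q) → C q (β z q) = z) (p : P) (τ : ℝ)
    (h1 : ∀ᵐ t : ℝ, t < τ → ∀ q, t ≤ β (C p t) q)
    (h2 : ∀ᵐ t : ℝ, t < -τ → ∀ q, t ≤ β (C (ng p) t) q) : τ = 0 ∧ ∀ q, C q 0 = C p 0 := by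
  have k1 : ∀ q, τ ≤ β (C p τ) q := fun q =>
    lim_le (f := fun t => β (C p t) q) ((cβ q).comp (cC p))
      (h1.mono fun t ht h => ht h q)
  have k2 : ∀ q, -τ ≤ β (C p τ) q := fun q => by
    have := lim_le (f := fun t => β (C (ng p) t) q) ((cβ q).comp (cC _))
      (h2.mono fun t ht h => ht h q)
    simpa only [flip, neg_neg] using this
  have e1 : β (C p τ) (ng p) = -τ := by
    have := val (ng p) (-τ)
    rwa [flip, neg_neg] at this
  have h0 : τ = 0 := by
    have a1 := k1 (ng p)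
    have a2 := k2 p
    rw [e1] at a1
    rw [val] at a2
    linarith
  subst h0
  refine ⟨rfl, fun q => ?_⟩
  have z0 : ∀ q, β (C p 0) q = 0 := fun q => by
    obtain ⟨q', hq⟩ := tm (C p 0) (ng q)
    rw [inv] at hq
    linarith [k1 q', k1 q]
  have := crit (C p 0) q (by rw [z0, z0, neg_zero])
  rwa [z0] at this

end Pool.Agent.MP_3ee8cb_gt.CZN
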