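import Pool.Agent.MP_3ee8cb_gt.CZN.WF
import Pool.Agent.MP_3ee8cb_gt.CZN.One
import Pool.Agent.MP_3ee8cb_gt.CZN.End0
import Pool.Agent.MP_3ee8cb_gt.D3MO.Sph

/-! The equality case: all geodesics of a fibre pass through one point. -/

namespace Pool.Agent.MP_3ee8cb_gt.CZN

open Set Filter Topology MeasureTheory D3 D3NP CZ
open CZO (C0F Foc)
open D3AR (un)
open D3GB (bv trip)
open D3MO (S2)
open scoped RealInnerProductSpace ENNReal

variable {m m' : MF} {φ : V × V → V × V} {lg : V × V → V} {σ : V → V × V} {a hi : ℝ}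
  {b : V × V → V → ℝ} {T : V → S2 → S2} {G : V → S2 → V} {K : V → V} {Om Om0 : Set V} {x u : V}

/-- A measurable version of `yy`. -/
theorem m_yy (o : m.OK) {P : V → V × V} (hO : IsOpen Om) (c : ContinuousOn P Om) :
    ∃ y : V → ℝ, Measurable y ∧ ∀ u ∈ Om, y u = yy m P u := by
  classical
  have h1 : Measurable (Om.piecewise P fun _ => 0) :=
    c.measurable_piecewise continuousOn_const hO.measurableSet
  have v : Continuous fun q : (V × V) × V × V => q.2.2 + m.om q.1.1 q.2.1 q.1.2 :=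
    continuous_snd.snd.add (((o.com.continuous.comp continuous_fst.fst).clm_apply
      continuous_snd.fst).clm_apply continuous_fst.snd)
  have t : Continuous fun q : V × V × V => trip q.1 q.2.1 q.2.2 := by
    unfold trip
    fun_prop
  have w := fun i => v.measurable.comp (h1.prodMk (measurable_fderiv_apply_const ℝ P (bv i)))
  refine ⟨_, t.measurable.comp (h1.snd.prodMk ((w 0).prodMk (w 1))), fun u hu => ?_⟩
  simp only [Function.comp, piecewise_eq_of_mem _ _ _ hu]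
  rfl

/-- A focal point on the ray. -/
def Fo (m : MF) (P : V → V × V) (u : V) : Prop :=
  ∃ s : ℝ, ∀ e : V, e 2 = 0 → nf m P (u + s • bv 2) e = 0

theorem foc (pt : SPT) (zm : SZM) (ray : CZ.SRAY) (ty : STY) (gr : CZO.SGROW) (fib : SFIBS)
    (o : m.OK) (j : m.Jac) (cf : C0F m m' φ) (D : Dat m' lg (fr φ x) a hi b T G K Om Om0)
    (h : ∀ᵐ q : S2 ∂(volume : Measure V).toSphere, CZO.Gd m m' φ a (x, q) ∧ Foc m' φ x q) :
    (∀ᵐ u : V, u ∈ Om0 → ENNReal.ofReal (g0 K u) ≠ 0 →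
      DifferentiableAt ℝ (PK m' (fr φ x) K) u ∧ Fo m' (PK m' (fr φ x) K) u) ∧
    ∀ᵐ u : V, u ∈ Zs m' (fr φ x) b K Om0 → Mn m' (PK m' (fr φ x) K) u := by
  have h1 := ae_reg K (ae_cone (Q := fun q => CZO.Gd m m' φ a (x, q) ∧ Foc m' φ x q) h)
  have h2 : ∀ᵐ u : V, u ∈ Om0 → ENNReal.ofReal (g0 K u) ≠ 0 →
      DifferentiableAt ℝ (PK m' (fr φ x) K) u ∧ Fo m' (PK m' (fr φ x) K) u := by
    filter_upwards [h1] with u k hu n
    obtain ⟨d1, d2⟩ := g0_ne n
    obtain ⟨k1, τ, k2, -⟩ := k d1 d2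
    obtain ⟨r1, -, -, r2⟩ := reg pt ray ty gr o j cf D hu d1 d2 k1
    exact ⟨r1, τ - u 2, r2 _ (by rwa [add_sub_cancel])⟩
  refine ⟨h2, ?_⟩
  obtain ⟨y, my, hy⟩ := m_yy D.ok D.atl.op D.geo.lip.continuousOn
  have e : ∀ u ∈ Sl Om0, ∀ s : ℝ, y (u + s • bv 2) = yy m' (PK m' (fr φ x) K) (u + s • bv 2) :=
    fun u hu s => hy _ (D.atl.cyl u (D.atl.sub hu.1) s)
  have h3 := sing (e := bv 2) (g := fun u => ENNReal.ofReal (g0 K u)) (m_Sl D.atl)
    (zm _ _ _ _ _ _ _ _ _ _ _ D) my (measure_ne_top (volume : Measure V).toSphere univ)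
    (fun g _ hg => fib _ _ _ _ _ _ _ _ _ _ _ D g (Eventually.of_forall fun u hu n =>
      (hg u n).imp fun τ k => ⟨k.1, e u hu τ ▸ k.2⟩))
    (by simpa using (slab D.atl (g := fun _ => 1) measurable_const).le) (by
      filter_upwards [h1] with u k hu n
      obtain ⟨d1, d2⟩ := g0_ne n
      obtain ⟨k1, -, -, -, k2⟩ := k d1 d2
      obtain ⟨-, ⟨τ, r1⟩, r2, -⟩ := reg pt ray ty gr o j cf D hu.1 d1 d2 k1
      refine ⟨τ, r1, ENNReal.ofReal_le_ofReal ?_⟩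
      rw [e u hu, r2]
      exact le_mul_of_one_le_right (g0_nn K u) (k2 _))
  have h4 := ae_all_iff.2 fun n : ℤ => ae_add (h2.and h3) ((n : ℝ) • bv 2)
  filter_upwards [h4] with u k hu
  have W := (pt _ _ _ _ _ _ _ _ _ _ _ D u (D.atl.sub hu.1)).2 hu.2.1
  have Y := ty _ _ _ _ _ _ _ _ _ _ _ D u hu.1 hu.2.1
  rcases hu.2.2.1.lt_or_gt with l | l
  · exfalso
    obtain ⟨v, w, v2, w2, hv, hw⟩ := W.dm l
    obtain ⟨t₀, ht⟩ := Y.2.2 ⟨w, w2, hw⟩
    obtain ⟨k1, k2⟩ := k (-⌊u 2⌋)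
    have s : u + ((-⌊u 2⌋ : ℤ) : ℝ) • bv 2 ∈ Sl Om0 := ⟨D.atl.cyl0 u hu.1 _, by
      rw [co2, Int.cast_neg]
      exact ⟨by linarith [Int.floor_le (u 2)], by linarith [Int.lt_floor_add_one (u 2)]⟩⟩
    generalize ((-⌊u 2⌋ : ℤ) : ℝ) = r at k1 k2 s
    obtain ⟨τ, hτ⟩ := ends pt ray D s.1 (W.dif r) ⟨-r, by rwa [sh2, add_neg_cancel, zero_smul,
      add_zero]⟩ ⟨t₀ - r, fun t l => by rw [sh2]; exact ht _ (by linarith)⟩
    obtain ⟨c, hc⟩ := (k1 s.1 (k2 s τ hτ (by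
      rw [e _ s, sh2]
      exact D.geo.pos _ (D.atl.cyl u (D.atl.sub hu.1) _) (W.dif _)))).2
    rw [sh2] at hc
    have a1 := (W.anti v v2 fun z => by simp [z, nf] at hv).lt_iff_gt (a := r + c) (b := 0)
    have a2 := (W.anti w w2 fun z => by simp [z, nf] at hw).lt_iff_gt (a := 0) (b := r + c)
    simp only [zero_smul, add_zero, hc v v2, hc w w2] at a1 a2
    exact lt_asymm (a1.1 hv) (a2.1 hw)
  · exact (W.dp l).elim id fun z => ((Y.2.1 z).1 hu).elim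

theorem glob (ty : STY) (gz : SGZ) (D : Dat m lg σ a hi b T G K Om Om0)
    (h : ∀ᵐ u : V, u ∈ Zs m σ b K Om0 → Mn m (PK m σ K) u) :
    ∀ᵐ z : V, ∀ p, Mi (bS b σ z) p → ∀ q, bS b σ z p ≤ bS b σ z q := by
  obtain ⟨-, i1, i2⟩ := D3MO.sSph
  filter_upwards [ae_img' (fun u => (PK m σ K u).1) h, gz _ _ _ _ _ _ _ _ _ _ _ D]
    with z h1 ⟨Cr, c1, c2⟩ p hp
  refine one_min c1 (fun q hq => or_iff_not_imp_right.2 fun n => ?_) hp
  obtain ⟨u, hu, d, k, rfl, e⟩ := c2 q hq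
  refine ((ty _ _ _ _ _ _ _ _ _ _ _ D u hu d).1 (h1 u d.fst rfl ⟨hu, d, k, fun p' e' => ?_⟩)).2 q e
  obtain rfl : p' = q := Subtype.ext (e'.trans e.symm)
  have v := D.tx.val p' (Real.log ‖K u‖)
  rw [cc, e] at v
  rw [Lw, show bS b σ (PK m σ K u).1 p' = _ from v] at n
  exact n

theorem rEN : R_EN := by
  intro pt _ zm ray ty gz gr fib m m' φ lg a hi b T G K Om Om0 x o j cf D h q q' hq hq'
  obtain ⟨h1, h2⟩ := foc pt zm ray ty gr fib o j cf D h
  have h3 := ray_ae (ae_reg (fun u => (PK m' (fr φ x) K u).1) (glob ty gz D h2)) (bv 2)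
  obtain ⟨u, hu, n, k1, k2⟩ : ∃ u ∈ Sl Om0, ENNReal.ofReal (g0 K u) ≠ 0 ∧ _ ∧ _ := by
    by_contra hc
    have z := slab D.atl (g := fun _ => 1) measurable_const
    rw [lintegral_congr_ae (g := fun _ => 0) ((ae_restrict_iff' (m_Sl D.atl)).2
      ((h1.and h3).mono fun u k hu => by
        rw [mul_one]
        exact by_contra fun n => hc ⟨u, hu, n, k⟩)), lintegral_zero, lintegral_one] at z
    exact Measure.toSphere_ne_zero _ (Measure.measure_univ_eq_zero.1 z)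
  obtain ⟨d, s, hs⟩ := k1 hu.1 n
  have hO := D.atl.sub hu.1
  obtain ⟨⟨-, W0⟩, W⟩ := pt _ _ _ _ _ _ _ _ _ _ _ D u hO
  replace W := W d
  let p : S2 := ⟨un (K u), by simpa using norm_un (AtlK.ne D.atl hO)⟩
  have e : ∀ t : ℝ, (PK m' (fr φ x) K (u + t • bv 2)).1 = cc m' (fr φ x) p (u 2 + t) := fun t => by
    rw [PK, D3NB.Ph, D.atl.nrm _ (D.atl.cyl u hO t), Real.log_exp, co2, ← co2,
      ← D.atl.nrm _ (D.atl.cyl u hO t)]
    exact congrArg (fun w => (m'.Z _ (fr φ x w)).1) (AtlK.unt D.atl u t)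
  have fl : ∀ (r : S2) t, cc m' (fr φ x) (-r) t = cc m' (fr φ x) r (-t) := fun r t => by
    rw [cc, cc, coe_neg_sphere, ← neg_one_smul ℝ r.1, D.geo.hom _ _ (by norm_num)
      (D3NB.ne_of_unit (by simp)), D.jac.scale, neg_one_mul]
  have k3 : ∀ᵐ t : ℝ, (t < s → ∀ r, u 2 + t ≤ bS b (fr φ x) (cc m' (fr φ x) p (u 2 + t)) r) ∧
      (s < t → ∀ r, -(u 2 + t) ≤ bS b (fr φ x) (cc m' (fr φ x) p (u 2 + t)) r) := by
    filter_upwards [k2, W.zer.countable.ae_notMem volume] with t k z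
    have W' := (pt _ _ _ _ _ _ _ _ _ _ _ D _ (D.atl.cyl u hO t)).2 (W.dif t)
    have Y := ty _ _ _ _ _ _ _ _ _ _ _ D _ (D.atl.cyl0 u hu.1 t) (W.dif t)
    have k' := k (W.dif t).fst fun c => z (by
      rw [← W'.jc, jc, c, mul_zero])
    rw [e, AtlK.unt D.atl] at Y
    rw [e] at k'
    refine ⟨fun l r => ?_, fun l r => ?_⟩
    · refine (D.tx.val p _).ge.trans (k' p ((Y.1 fun v v2 v0 => ?_).2 p rfl) r)
      exact (hs v v2).ge.trans_lt (W.anti v v2 v0 l)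
    · refine le_trans ?_ (k' (-p) ((Y.2.1 fun v v2 v0 => ?_).2 (-p) rfl) r)
      · rw [← D.tx.val (-p) (-(u 2 + t)), fl, neg_neg]
      · exact (W.anti v v2 v0 l).trans_eq (hs v v2)
  have E := (end0 (fun r : S2 => -r) (cc m' (fr φ x)) (bS b (fr φ x)) neg_neg
    (fun r => D.tx.ts.cb.comp (continuous_id.prodMk continuous_const))
    (fun r => (continuous_iff_continuousAt.2 fun t => (D.ok.ode _ t).continuousAt).fst) fl
    D.tx.val (fun z r => ⟨T z r, D.tx.ts.tm z r⟩) (fun z r k => D.tx.crit z r k.symm) p (u 2 + s)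
    (((measurePreserving_sub_right volume (u 2)).quasiMeasurePreserving.ae k3).mono
      fun t k l => by simpa using k.1 (by linarith))
    (((Measure.measurePreserving_sub_left volume (-u 2)).quasiMeasurePreserving.ae k3).mono
      fun t k l => by
        have := k.2 (by linarith)
        rw [show u 2 + (-u 2 - t) = -t by ring, neg_neg, ← fl] at this
        exact this)).2
  have := (E ⟨q, by simpa using hq⟩).trans (E ⟨q', by simpa using hq'⟩).symm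
  rwa [cc, cc, D.ok.zero, D.ok.zero] at this

end Pool.Agent.MP_3ee8cb_gt.CZN
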