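import Pool.Agent.MP_3ee8cb_gt.CZ.Defs
import Pool.Agent.MP_3ee8cb_gt.CZ.Atl
import Pool.Agent.MP_3ee8cb_gt.CZN.Meas

/-! The front in a chart at a point where the conjugacy is differentiable. -/

namespace Pool.Agent.MP_3ee8cb_gt.CZN

open Set Filter Topology D3 D3NP D3NB CZ
open D3AR (un)
open D3GB (trip bv rDET3)
open scoped RealInnerProductSpace

variable {m : MF} {σ : V → V × V} {K : V → V} {Om Om0 : Set V} {u p : V}

theorem hasPh (hm : m.OK) (hd : DifferentiableAt ℝ σ p) (hp : ‖p‖ = 1) (t : ℝ) :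
    DifferentiableAt ℝ (Ph m σ) (Real.exp t • p) ∧ ∀ e, ⟪p, e⟫ = 0 →
      fderiv ℝ (Ph m σ) (Real.exp t • p) e =
        (Real.exp t)⁻¹ • fderiv ℝ (m.Z t) (σ p) (fderiv ℝ σ p e) := by
  have r0 := Real.exp_pos t
  have ha : Real.exp t • p ≠ 0 := smul_ne_zero r0.ne' (ne_of_unit hp)
  have hn := dnorm' ha
  rw [uexp hp] at hn
  have h0 := (norm_pos_iff.2 ha).ne'
  have hu := ((hasFDerivAt_inv h0).comp _ hn).fun_smul (hasFDerivAt_id (Real.exp t • p))
  have hs : HasFDerivAt σ (fderiv ℝ σ p) (‖Real.exp t • p‖⁻¹ • Real.exp t • p) := by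
    rw [uexp hp]
    exact hd.hasFDerivAt
  have d : HasFDerivAt (fun q : ℝ × V × V => m.Z q.1 q.2) (fderiv ℝ (fun q : ℝ × V × V =>
      m.Z q.1 q.2) (t, σ p)) (Real.log ‖Real.exp t • p‖,
        σ (‖Real.exp t • p‖⁻¹ • Real.exp t • p)) := by
    rw [uexp hp, nexp hp, Real.log_exp]
    exact (hm.cZ.differentiable one_ne_zero _).hasFDerivAt
  have h3 : HasFDerivAt (Ph m σ) _ (Real.exp t • p) :=
    HasFDerivAt.comp (f := fun x : V => (Real.log ‖x‖, σ (‖x‖⁻¹ • x))) _ d ((hn.log h0).prodMk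
      (HasFDerivAt.comp (f := fun x : V => ‖x‖⁻¹ • x) _ hs hu))
  refine ⟨h3.differentiableAt, fun e he => ?_⟩
  have e1 := dZ2 hm t (σ p) 0 (fderiv ℝ σ p ((Real.exp t)⁻¹ • e))
  rw [zero_smul, zero_add, map_smul, map_smul (fderiv ℝ (m.Z t) (σ p))] at e1
  rw [h3.fderiv, ← e1, ← map_smul]
  simp only [ContinuousLinearMap.comp_apply, ContinuousLinearMap.prod_apply]
  congr 2
  · simp [he]
  · simp [nexp hp, he]

theorem rad2 (hm : m.OK) (hj : m.Jac) (hd : DifferentiableAt ℝ σ p)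
    (hom : ∀ r : ℝ, 0 < r → σ (r • p) = ((σ p).1, r • (σ p).2)) (t : ℝ) :
    At2 m σ t p p = (m.Z t (σ p)).2 := by
  have h1 : HasDerivAt (fun r : ℝ => ((σ p).1, r • (σ p).2)) (0, (σ p).2) 1 := by
    simpa using (hasDerivAt_const (1 : ℝ) (σ p).1).prodMk
      ((hasDerivAt_id (1 : ℝ)).smul_const (σ p).2)
  have k1 : HasDerivAt (fun r : ℝ => r • p) p 1 := by
    simpa using (hasDerivAt_id (1 : ℝ)).smul_const p
  have k2 := (HasFDerivAt.comp_hasDerivAt_of_eq (1 : ℝ) hd.hasFDerivAt k1 (by simp)).unique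
    (h1.congr_of_eventuallyEq (by
      filter_upwards [Ioi_mem_nhds (zero_lt_one' ℝ)] with r hr using hom r hr))
  have h2 : HasFDerivAt (m.Z t) (fderiv ℝ (m.Z t) (σ p)) ((σ p).1, (1 : ℝ) • (σ p).2) := by
    rw [one_smul]
    exact (dZt hm t _).hasFDerivAt
  have h3 : HasDerivAt (fun r : ℝ => m.Z (r * t) (σ p)) (t • m.vf (m.Z t (σ p))) 1 := by
    have o := hm.ode (σ p) (1 * t)
    have := o.scomp (1 : ℝ) ((hasDerivAt_id (1 : ℝ)).mul_const t)
    simpa [Function.comp_def] using this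
  have h4 := HasDerivAt.prodMk h3.fst ((hasDerivAt_id (1 : ℝ)).smul h3.snd)
  have h5 := (h2.comp_hasDerivAt 1 h1).unique (HasDerivAt.congr_of_eventuallyEq h4
    (Eventually.of_forall fun r => hj.scale t r (σ p).1 (σ p).2))
  change m.ver _ (fderiv ℝ (m.Z t) (σ p) (fderiv ℝ σ p p)) = _
  rw [k2, h5]
  simp [MF.ver, MF.vf]

theorem co2 (u : V) (s : ℝ) : (u + s • bv 2) 2 = u 2 + s := by simp [bv]

theorem un_smul {r : ℝ} (hr : 0 < r) (a : V) : un (r • a) = un a := by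
  rw [un, un, norm_smul, Real.norm_of_nonneg hr.le, smul_smul, mul_inv_rev, mul_assoc,
    inv_mul_cancel₀ hr.ne', mul_one]

namespace AtlK

variable (A : Atl K Om Om0)
include A

theorem ne (hu : u ∈ Om) : K u ≠ 0 :=
  norm_ne_zero_iff.1 ((A.nrm u hu).trans_ne (Real.exp_pos _).ne')

theorem pol (hu : u ∈ Om) : K u = Real.exp (u 2) • un (K u) := by
  rw [un, A.nrm u hu, smul_smul, mul_inv_cancel₀ (Real.exp_pos _).ne', one_smul]

theorem unt (u : V) (s : ℝ) : un (K (u + s • bv 2)) = un (K u) := by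
  rw [A.tr, un_smul (Real.exp_pos s)]

theorem tr (d : DifferentiableAt ℝ K u) (s : ℝ) :
    HasFDerivAt K (Real.exp s • fderiv ℝ K u) (u + s • bv 2) := by
  have e : K = fun v => Real.exp s • K (v - s • bv 2) := funext fun v => by
    rw [← A.tr, sub_add_cancel]
  have h : HasFDerivAt K (fderiv ℝ K u) (u + s • bv 2 - s • bv 2) := by
    rw [add_sub_cancel_right]
    exact d.hasFDerivAt
  have := (HasFDerivAt.comp (f := fun v => v - s • bv 2) _ h
    ((hasFDerivAt_id _).sub_const (s • bv 2))).const_smul (Real.exp s)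
  exact this.congr_of_eventuallyEq (Eventually.of_forall (congrFun e))

theorem d2 (d : DifferentiableAt ℝ K u) : fderiv ℝ K u (bv 2) = K u := by
  have h1 : HasDerivAt (fun s : ℝ => u + s • bv 2) (bv 2) 0 := by
    simpa using ((hasDerivAt_id (0 : ℝ)).smul_const (bv 2)).const_add u
  have h2 := HasFDerivAt.comp_hasDerivAt_of_eq (0 : ℝ) d.hasFDerivAt h1 (by simp)
  have h3 := (Real.hasDerivAt_exp 0).smul_const (K u)
  rw [Real.exp_zero, one_smul] at h3
  exact h2.unique (h3.congr_of_eventuallyEq (Eventually.of_forall fun s => A.tr u s))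

theorem perp (hu : u ∈ Om) (d : DifferentiableAt ℝ K u) {e : V} (he : e 2 = 0) :
    ⟪un (K u), fderiv ℝ K u e⟫ = 0 := by
  have h1 : HasDerivAt (fun s : ℝ => u + s • e) e 0 := by
    simpa using ((hasDerivAt_id (0 : ℝ)).smul_const e).const_add u
  have h2 := (HasFDerivAt.comp_hasDerivAt_of_eq (0 : ℝ) d.hasFDerivAt h1 (by simp)).norm_sq
  have h3 : ∀ᶠ s : ℝ in 𝓝 0, u + s • e ∈ Om :=
    h1.continuousAt.eventually (A.op.mem_nhds (by simpa using hu))
  have h4 := h2.unique ((hasDerivAt_const (0 : ℝ) (Real.exp (u 2) ^ 2)).congr_of_eventuallyEq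
    (h3.mono fun s hs => by simp [A.nrm _ hs, he]))
  simp only [Function.comp, zero_smul, add_zero] at h4
  rw [un, real_inner_smul_left, show ⟪K u, fderiv ℝ K u e⟫ = 0 by linarith, mul_zero]

end AtlK

/-- The Jacobian of the direction. -/
noncomputable def g0 (K : V → V) (u : V) : ℝ := |(fderiv ℝ K u).det| * (‖K u‖ ^ 3)⁻¹

theorem link (o : m.OK) (j : m.Jac) (A : Atl K Om Om0) (hu : u ∈ Om)
    (d : DifferentiableAt ℝ K u) (dσ : DifferentiableAt ℝ σ (un (K u)))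
    (hom : ∀ r : ℝ, 0 < r → σ (r • un (K u)) = ((σ (un (K u))).1, r • (σ (un (K u))).2))
    (s : ℝ) : DifferentiableAt ℝ (PK m σ K) (u + s • bv 2) ∧ (∀ e, e 2 = 0 →
      Ah m (PK m σ K) (u + s • bv 2) e =
        (Real.exp (u 2))⁻¹ • At m σ (u 2 + s) (un (K u)) (fderiv ℝ K u e) ∧
      Av m (PK m σ K) (u + s • bv 2) e =
        (Real.exp (u 2))⁻¹ • At2 m σ (u 2 + s) (un (K u)) (fderiv ℝ K u e)) ∧
      |yy m (PK m σ K) (u + s • bv 2)| = g0 K u * Dt m σ 0 (u 2 + s) (un (K u)) := by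
  have n := norm_un (AtlK.ne A hu)
  have e0 : K (u + s • bv 2) = Real.exp (u 2 + s) • un (K u) := by
    rw [AtlK.pol A (A.cyl u hu s), co2, AtlK.unt A]
  obtain ⟨h1, h2⟩ := hasPh o dσ n (u 2 + s)
  have h3 : HasFDerivAt (PK m σ K) _ (u + s • bv 2) :=
    (e0 ▸ h1.hasFDerivAt).comp _ (AtlK.tr A d s)
  have e1 : PK m σ K (u + s • bv 2) = m.Z (u 2 + s) (σ (un (K u))) := by
    rw [PK, e0, Ph_exp n]
  have e2 : ∀ e : V, e 2 = 0 → fderiv ℝ (PK m σ K) (u + s • bv 2) e = (Real.exp (u 2))⁻¹ •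
      fderiv ℝ (m.Z (u 2 + s)) (σ (un (K u))) (fderiv ℝ σ (un (K u)) (fderiv ℝ K u e)) := by
    intro e he
    rw [h3.fderiv, ContinuousLinearMap.comp_apply, smul_apply, map_smul, e0,
      h2 _ (AtlK.perp A hu d he), smul_smul, Real.exp_add, mul_inv_rev, ← mul_assoc,
      mul_inv_cancel₀ (Real.exp_pos s).ne', one_mul]
  have k : ∀ e : V, e 2 = 0 → Ah m (PK m σ K) (u + s • bv 2) e =
        (Real.exp (u 2))⁻¹ • At m σ (u 2 + s) (un (K u)) (fderiv ℝ K u e) ∧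
      Av m (PK m σ K) (u + s • bv 2) e =
        (Real.exp (u 2))⁻¹ • At2 m σ (u 2 + s) (un (K u)) (fderiv ℝ K u e) := fun e he => by
    rw [Ah, Av, ContinuousLinearMap.comp_apply, ContinuousLinearMap.comp_apply, e2 e he, e1,
      map_smul, map_smul, At_apply, AtlK.perp A hu d he, zero_smul, sub_zero]
    exact ⟨rfl, rfl⟩
  refine ⟨h3.differentiableAt, k, ?_⟩
  have b := det_basis (At2 m σ (u 2 + s) (un (K u))) (un (K u)) (fderiv ℝ K u (bv 0))
    (fderiv ℝ K u (bv 1))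
  have r := (Real.exp_pos (u 2)).ne'
  have c : (fderiv ℝ K u).det =
      Real.exp (u 2) * trip (un (K u)) (fderiv ℝ K u (bv 0)) (fderiv ℝ K u (bv 1)) := by
    rw [rDET3, AtlK.d2 A d]
    conv_lhs => rw [AtlK.pol A hu]
    simp only [trip, PiLp.smul_apply, smul_eq_mul]
    ring
  rw [rad2 o j dσ hom] at b
  have z : ∀ X Y : V →L[ℝ] V, X + (0 : ℝ) • Y = X := fun X Y => by ext1; simp
  rw [yy, (k _ (by simp [bv])).2, (k _ (by simp [bv])).2, e1, g0, Dt, z, c,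
    A.nrm u hu, ← abs_of_pos (inv_pos.2 (pow_pos (Real.exp_pos (u 2)) 3)), ← abs_mul, ← abs_mul]
  congr 1
  simp only [trip, PiLp.smul_apply, smul_eq_mul] at b ⊢
  field_simp
  linarith

end Pool.Agent.MP_3ee8cb_gt.CZN
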