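import Pool.Agent.MP_3ee8cb_gt.D3.Defs

/-! The equality case of the strong fibre inequality. -/

namespace Pool.Agent.MP_3ee8cb_gt.CZN

open Set Filter MeasureTheory D3
open scoped ENNReal

variable {S R : Set V} {e a : V} {Q : V → Prop}

/-- The time at which the ray leaves `R`. -/
noncomputable def tx (R : Set V) (e a : V) : ℝ :=
  (volume {t : ℝ | 0 < t ∧ a + t • e ∈ R}).toReal - (volume {t : ℝ | t < 0 ∧ a + t • e ∉ R}).toReal

theorem m_sh (e : V) : Measurable fun x : V × ℝ => x.1 + x.2 • e :=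
  (by fun_prop : Continuous fun x : V × ℝ => x.1 + x.2 • e).measurable

theorem m_tx (mR : MeasurableSet R) (e : V) : Measurable (tx R e) :=
  (measurable_measure_prodMk_left (s := {x : V × ℝ | 0 < x.2 ∧ x.1 + x.2 • e ∈ R})
    ((measurableSet_lt measurable_const measurable_snd).inter (m_sh e mR))).ennreal_toReal.sub
  (measurable_measure_prodMk_left (s := {x : V × ℝ | x.2 < 0 ∧ x.1 + x.2 • e ∉ R})
    ((measurableSet_lt measurable_snd measurable_const).inter (m_sh e mR).compl)).ennreal_toReal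

theorem tx_eq {τ : ℝ} (h : ∀ᵐ t : ℝ, a + t • e ∈ R ↔ t < τ) : tx R e a = τ := by
  have h1 : {t : ℝ | 0 < t ∧ a + t • e ∈ R} =ᵐ[volume] Ioo 0 τ :=
    h.mono fun t k => propext (and_congr_right' k)
  have h2 : {t : ℝ | t < 0 ∧ a + t • e ∉ R} =ᵐ[volume] Ico τ 0 :=
    h.mono fun t k => propext ((and_congr_right' (k.not.trans not_lt)).trans and_comm)
  rw [tx, measure_congr h1, measure_congr h2, Real.volume_Ioo, Real.volume_Ico,
    ENNReal.toReal_ofReal', ENNReal.toReal_ofReal', sub_zero, zero_sub,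
    max_zero_sub_max_neg_zero_eq_self]

theorem sing {y : V → ℝ} {g : V → ℝ≥0∞} {c : ℝ≥0∞} (mS : MeasurableSet S) (mR : MeasurableSet R)
    (my : Measurable y) (hc : c ≠ ∞)
    (fib : ∀ G : V → ℝ≥0∞, Measurable G → (∀ a, G a ≠ 0 → ∃ τ : ℝ,
      (∀ᵐ t : ℝ, a + t • e ∈ R ↔ t < τ) ∧ G a ≤ ENNReal.ofReal (y (a + τ • e))) →
      ∫⁻ a in S, G a ≤ c) (low : c ≤ ∫⁻ a in S, g a)
    (hg : ∀ᵐ a, a ∈ S → g a ≠ 0 → ∃ τ : ℝ, (∀ᵐ t : ℝ, a + t • e ∈ R ↔ t < τ) ∧
      g a ≤ ENNReal.ofReal (y (a + τ • e))) :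
    ∀ᵐ a, a ∈ S → ∀ τ : ℝ, (∀ᵐ t : ℝ, a + t • e ∈ R ↔ t < τ) → 0 < y (a + τ • e) → g a ≠ 0 := by
  set F := {a : V | ∀ᵐ t : ℝ, a + t • e ∈ R ↔ t < tx R e a}
  have mF : MeasurableSet F := by
    have := measurable_measure_prodMk_left (ν := (volume : Measure ℝ))
      (s := {x : V × ℝ | x.1 + x.2 • e ∈ R ↔ x.2 < tx R e x.1}ᶜ) (MeasurableSet.compl
        (MeasurableSet.iff (m_sh e mR)
          (measurableSet_lt measurable_snd ((m_tx mR e).comp measurable_fst))))
    exact this (measurableSet_singleton 0)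
  have mem : ∀ a τ, (∀ᵐ t : ℝ, a + t • e ∈ R ↔ t < τ) → a ∈ F := fun a τ h => by
    rwa [← tx_eq h] at h
  have mG : Measurable (F.indicator fun a => ENNReal.ofReal (y (a + tx R e a • e))) :=
    (my.comp (measurable_id.add ((m_tx mR e).smul_const e))).ennreal_ofReal.indicator mF
  have h1 := fib _ mG fun a ha => by
    have k : a ∈ F := mem_of_indicator_ne_zero ha
    exact ⟨_, k, (indicator_of_mem k _).le⟩
  have h2 : g ≤ᵐ[volume.restrict S]
      F.indicator fun a => ENNReal.ofReal (y (a + tx R e a • e)) := by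
    refine (ae_restrict_iff' mS).2 (hg.mono fun a h ha => ?_)
    by_cases z : g a = 0
    · exact z.le.trans zero_le
    · obtain ⟨τ, k1, k2⟩ := h ha z
      rwa [indicator_of_mem (mem a τ k1), tx_eq k1]
  have h3 := ae_eq_of_ae_le_of_lintegral_le h2
    (ne_top_of_le_ne_top hc ((lintegral_mono_ae h2).trans h1)) mG.aemeasurable (h1.trans low)
  filter_upwards [(ae_restrict_iff' mS).1 h3] with a h ha τ k1 k2
  rw [h ha, indicator_of_mem (mem a τ k1), tx_eq k1]
  exact (ENNReal.ofReal_pos.2 k2).ne'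

theorem ae_add (h : ∀ᵐ a : V, Q a) (v : V) : ∀ᵐ a : V, Q (a + v) :=
  (measurePreserving_add_right volume v).quasiMeasurePreserving.ae h

/-- From the rays to the points. -/
theorem ae_ray (mQ : MeasurableSet {a | Q a}) (h : ∀ᵐ a : V, ∀ᵐ t : ℝ, Q (a + t • e)) :
    ∀ᵐ a, Q a := by
  obtain ⟨t, ht⟩ := ((Measure.ae_ae_comm (p := fun (a : V) (t : ℝ) => Q (a + t • e))
    (m_sh e mQ)).1 h).exists
  simpa using ae_add ht (-(t • e))

/-- From the points to the rays. -/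
theorem ray_ae (h : ∀ᵐ a, Q a) (e : V) : ∀ᵐ a : V, ∀ᵐ t : ℝ, Q (a + t • e) := by
  obtain ⟨N, n1, n2, n3⟩ := exists_measurable_superset_of_null (ae_iff.1 h)
  have := (Measure.ae_ae_comm (μ := volume) (ν := volume)
    (p := fun (a : V) (t : ℝ) => a + t • e ∉ N) (m_sh e n2.compl)).2 (Eventually.of_forall fun t =>
      ae_add (measure_eq_zero_iff_ae_notMem.1 n3) (t • e))
  exact this.mono fun a k => k.mono fun t l => not_not.1 fun d => l (n1 d)

/-- A lower set that is neither null nor of full measure is a half line. -/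
theorem low_half {I : Set ℝ} (h : IsLowerSet I) (h1 : I.Nonempty) (h2 : Iᶜ.Nonempty) :
    ∃ τ, ∀ᵐ t : ℝ, t ∈ I ↔ t < τ := by
  obtain ⟨b, hb⟩ := h2
  have bd : BddAbove I := ⟨b, fun t ht => not_lt.1 fun d => hb (h d.le ht)⟩
  refine ⟨sSup I, (Measure.ae_ne volume (sSup I)).mono fun t ht =>
    ⟨fun k => (le_csSup bd k).lt_of_ne ht, fun k => ?_⟩⟩
  obtain ⟨s, s1, s2⟩ := exists_lt_of_lt_csSup h1 k
  exact h s2.le s1

end Pool.Agent.MP_3ee8cb_gt.CZN
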