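import Pool.Agent.MP_3ee8cb_gt.CZ.Spec
import Pool.Agent.MP_3ee8cb_gt.CZN.Link
import Pool.Agent.MP_3ee8cb_gt.CZN.Sing

/-! The weak fibre inequality from the strong one. -/

namespace Pool.Agent.MP_3ee8cb_gt.CZN

open Set Filter Topology MeasureTheory D3 D3NP CZ
open CZO (C0F)
open D3AR (un)
open D3GB (bv)
open D3MO (S2)
open scoped RealInnerProductSpace ENNReal

variable {m m' : MF} {φ : V × V → V × V} {lg : V × V → V} {σ : V → V × V} {a hi : ℝ}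
  {b : V × V → V → ℝ} {T : V → S2 → S2} {G : V → S2 → V} {K : V → V} {Om Om0 : Set V} {x u : V}

theorem sh2 (u : V) (s t : ℝ) : u + s • bv 2 + t • bv 2 = u + (s + t) • bv 2 := by
  rw [add_smul, add_assoc]

theorem ends (pt : SPT) (ray : CZ.SRAY) (D : Dat m lg σ a hi b T G K Om Om0) (hu : u ∈ Om0)
    (d : DifferentiableAt ℝ (PK m σ K) u) (h1 : ∃ s : ℝ, u + s • bv 2 ∈ Zs m σ b K Om0)
    (h2 : ∃ t₀, ∀ t : ℝ, t₀ ≤ t → u + t • bv 2 ∉ Zs m σ b K Om0) :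
    ∃ τ : ℝ, ∀ᵐ t : ℝ, u + t • bv 2 ∈ Zs m σ b K Om0 ↔ t < τ := by
  obtain ⟨s, hs⟩ := h1
  obtain ⟨t₀, h2⟩ := h2
  obtain ⟨τ, h⟩ := low_half (I := {t | ∃ r, t ≤ r ∧ u + r • bv 2 ∈ Zs m σ b K Om0})
    (fun _ _ e ⟨r, k, l⟩ => ⟨r, le_trans e k, l⟩) ⟨s, s, le_rfl, hs⟩
    ⟨t₀, fun ⟨r, k, l⟩ => h2 r k l⟩
  have z := ((pt _ _ _ _ _ _ _ _ _ _ _ D u (D.atl.sub hu)).2 d).zer.countable.ae_notMem volume
  refine ⟨τ, ?_⟩
  filter_upwards [h, z] with t h3 h4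
  refine Iff.trans ⟨fun k => ⟨t, le_rfl, k⟩, fun ⟨r, k, l⟩ => ?_⟩ h3
  have := ray _ _ _ _ _ _ _ _ _ _ _ D _ l (t - r) (sub_nonpos.2 k)
  rw [sh2, add_sub_cancel] at this
  exact this h4

theorem det_ne {L : V →L[ℝ] V} (h : L.det ≠ 0) {e : V} (he : e ≠ 0) : L e ≠ 0 := fun k =>
  he ((L.toContinuousLinearEquivOfDetNeZero h).injective (by simpa using k))

/-- A regular chart point over a good vector. -/
theorem reg (pt : SPT) (ray : CZ.SRAY) (ty : STY) (gr : CZO.SGROW) (o : m.OK) (j : m.Jac)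
    (cf : C0F m m' φ) (D : Dat m' lg (fr φ x) a hi b T G K Om Om0) (hu : u ∈ Om0)
    (d : DifferentiableAt ℝ K u) (hd : (fderiv ℝ K u).det ≠ 0)
    (g : CZO.Gd m m' φ a (x, un (K u))) : DifferentiableAt ℝ (PK m' (fr φ x) K) u ∧
      (∃ τ : ℝ, ∀ᵐ t : ℝ, u + t • bv 2 ∈ Zs m' (fr φ x) b K Om0 ↔ t < τ) ∧
      (∀ s : ℝ, yy m' (PK m' (fr φ x) K) (u + s • bv 2) =
        g0 K u * Dt m' (fr φ x) 0 (u 2 + s) (un (K u))) ∧
      ∀ s : ℝ, At m' (fr φ x) (u 2 + s) (un (K u)) = 0 → ∀ e : V, e 2 = 0 →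
        nf m' (PK m' (fr φ x) K) (u + s • bv 2) e = 0 := by
  have hO := D.atl.sub hu
  have dσ : HasFDerivAt (fr φ x) ((fderiv ℝ φ (x, un (K u))).comp (.inr ℝ V V)) (un (K u)) :=
    g.dif.hasFDerivAt.comp _ (hasFDerivAt_prodMk_right x (un (K u)))
  have L := link D.ok D.jac D.atl hO d dσ.differentiableAt fun r hr =>
    D.geo.hom r _ hr.ne' (D3NB.ne_of_unit g.unit)
  have d0 : DifferentiableAt ℝ (PK m' (fr φ x) K) u := by simpa using (L 0).1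
  obtain ⟨T₀, hT⟩ := gr m m' φ a _ o j D.ok D.jac cf D.a0 D.up g
  have k : ∀ (s : ℝ) (e : V), e 2 = 0 → nf m' (PK m' (fr φ x) K) (u + s • bv 2) e =
      -((Real.exp (u 2))⁻¹ ^ 2 / 2 * ⟪m'.J (φ (x, un (K u))) (fderiv ℝ φ (x, un (K u))
        (0, fderiv ℝ K u e)) (u 2 + s), m'.J' (φ (x, un (K u))) (fderiv ℝ φ (x, un (K u))
          (0, fderiv ℝ K u e)) (u 2 + s)⟫) := fun s e he => by
    rw [nf, ((L s).2.1 e he).1, ((L s).2.1 e he).2, At_apply, At2_apply,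
      AtlK.perp D.atl hO d he, zero_smul, sub_zero, dσ.fderiv, real_inner_smul_left,
      real_inner_smul_right, real_inner_comm]
    change -(_ * (_ * ⟪m'.J (φ _) (fderiv ℝ φ _ (0, fderiv ℝ K u e)) _,
      m'.J' (φ _) (fderiv ℝ φ _ (0, fderiv ℝ K u e)) _⟫)) / 2 = _
    ring
  have p : 0 < (Real.exp (u 2))⁻¹ ^ 2 / 2 := by positivity
  have Y := fun s => ty _ _ _ _ _ _ _ _ _ _ _ D _ (D.atl.cyl0 u hu s) (L s).1
  refine ⟨d0, ends pt ray D hu d0 ⟨-T₀ - u 2, ((Y _).1 fun e h1 h2 => ?_).1⟩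
    ⟨T₀ - u 2, fun t ht => ((Y _).2.1 fun e h1 h2 => ?_).1⟩, fun s => ?_, fun s h e he => ?_⟩
  · rw [k _ e h1]
    exact neg_pos.2 (mul_neg_of_pos_of_neg p
      ((hT _ _ (AtlK.perp D.atl hO d h1) (det_ne hd h2)).2 (by linarith)))
  · rw [k _ e h1]
    exact neg_neg_of_pos (mul_pos p
      ((hT _ _ (AtlK.perp D.atl hO d h1) (det_ne hd h2)).1 (by linarith)))
  · rw [← (L s).2.2, abs_of_pos (D.geo.pos _ (D.atl.cyl u hO s) (L s).1)]
  · rw [nf, ((L s).2.1 e he).1, h]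
    simp

theorem m_Sl (A : Atl K Om Om0) : MeasurableSet (Sl Om0) :=
  A.ms.inter ((by fun_prop : Continuous fun u : V => u 2).measurable measurableSet_Icc)

/-- Integration over the sphere in the chart. -/
theorem slab (A : Atl K Om Om0) {g : V → ℝ≥0∞} (hg : Measurable g) :
    ∫⁻ p : S2, g p ∂(volume : Measure V).toSphere =
      ∫⁻ u in Sl Om0, ENNReal.ofReal (g0 K u) * g (un (K u)) := by
  have e : K '' Sl Om0 = {a : V | a ≠ 0 ∧ Real.log ‖a‖ ∈ Icc 0 (0 + 1)} := by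
    ext a
    rw [zero_add]
    constructor
    · rintro ⟨u, hu, rfl⟩
      exact ⟨A.bij.mapsTo hu.1, by rw [A.nrm u (A.sub hu.1), Real.log_exp]; exact hu.2⟩
    · rintro ⟨h1, h2⟩
      obtain ⟨u, hu, rfl⟩ := A.bij.surjOn h1
      exact ⟨u, ⟨hu, by rwa [A.nrm u (A.sub hu), Real.log_exp] at h2⟩, rfl⟩
  rw [← shell hg 0, ← e, area A.op A.lip (m_Sl A) (fun u hu => A.sub hu.1)
    (A.bij.injOn.mono fun u hu => hu.1)]
  refine lintegral_congr fun u => ?_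
  rw [g0, ENNReal.ofReal_mul (abs_nonneg _), mul_assoc]

theorem g0_nn (K : V → V) (u : V) : 0 ≤ g0 K u := by
  unfold g0
  positivity

theorem g0_ne (h : ENNReal.ofReal (g0 K u) ≠ 0) :
    DifferentiableAt ℝ K u ∧ (fderiv ℝ K u).det ≠ 0 := by
  have k : (fderiv ℝ K u).det ≠ 0 := fun e => h (by simp [g0, e])
  exact ⟨by_contra fun n => k (by
    rw [fderiv_zero_of_not_differentiableAt n, D3GB.rDET3]; simp [D3GB.trip]), k⟩

theorem rWF : R_WF := by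
  intro pt _ ray ty gr fib m m' φ lg a hi b T G K Om Om0 x o j cf D g mg hg
  rw [slab D.atl mg]
  refine fib _ _ _ _ _ _ _ _ _ _ _ D _ (Eventually.of_forall fun u hu h => ?_)
  obtain ⟨d1, d2⟩ := g0_ne (left_ne_zero_of_mul h)
  obtain ⟨k1, k2⟩ := hg _ (norm_un (D.atl.bij.mapsTo hu.1)) (right_ne_zero_of_mul h)
  obtain ⟨-, ⟨τ, h1⟩, h2, -⟩ := reg pt ray ty gr o j cf D hu.1 d1 d2 k1
  refine ⟨τ, h1, ?_⟩
  rw [h2, ENNReal.ofReal_mul (g0_nn K u)]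
  exact mul_le_mul_right (k2 _) _

end Pool.Agent.MP_3ee8cb_gt.CZN
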